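import Pool.Agent.K3h71.PP.Defs

/-! Curves with an irreducible leading form, and smooth curves. -/

set_option autoImplicit false
set_option linter.all false

namespace Pool.Agent.K3h4.PP

open Polynomial Pool.Agent.K3h82.CP Pool.Agent.K3h71.PP

section
variable {R : Type} [CommRing R] {n : ℕ}

theorem cH (p : R[X][X]) (k j : ℕ) : ((Ph 1 1 p).coeff k).coeff j =
    if j ≤ k then (p.coeff j).coeff (k - j) else 0 := by
  rw [coeff_Ph one_pos]
  simp only [one_mul, isUnit_one, IsUnit.dvd, and_true, Nat.div_one]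

theorem c_ld (A : R[X][X]) (j : ℕ) : (ld n A).coeff j =
    if j ≤ n then (A.coeff j).coeff (n - j) else 0 := by
  unfold ld
  rw [finset_sum_coeff]
  simp only [coeff_C_mul_X_pow]
  rw [Finset.sum_ite_eq]
  simp only [Finset.mem_range, Nat.lt_succ_iff]

theorem H_coeff (A : R[X][X]) : (Ph 1 1 A).coeff n = ld n A := by
  ext j
  rw [cH, c_ld]

theorem H_lt {r : R[X][X]} (hr : r.natDegree < n) (k : ℕ) : ((Ph 1 1 r).coeff k).natDegree < n := by
  have h0 : 0 < n := by omega
  rw [← Nat.le_sub_one_iff_lt h0, natDegree_le_iff_coeff_eq_zero]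
  intro j hj
  rw [cH]
  split_ifs
  · rw [coeff_eq_zero_of_natDegree_lt (p := r) (by omega), coeff_zero]
  · rfl

theorem H_le {r : R[X][X]} (hr : r.natDegree ≤ n) (k : ℕ) : ((Ph 1 1 r).coeff k).natDegree ≤ n := by
  have := H_lt (n := n + 1) (r := r) (by omega) k
  omega

theorem H_pl [Nontrivial R] {F : R[X][X]} (hF : IsPl n F) : (Ph 1 1 F).natDegree = n ∧
    (Ph 1 1 F).leadingCoeff = ld n F ∧ (ld n F).Monic ∧ (ld n F).natDegree = n := by
  have h1 : (ld n F).coeff n = 1 := by
    rw [c_ld, if_pos le_rfl, Nat.sub_self]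
    have := hF.monic
    rw [Monic, leadingCoeff, hF.deg] at this
    rw [this, coeff_one_zero]
  have h2 : (ld n F).natDegree ≤ n := by
    rw [← H_coeff]
    exact H_le hF.deg.le _
  have h3 : (ld n F).natDegree = n := by
    apply le_antisymm h2
    apply le_natDegree_of_ne_zero
    rw [h1]
    exact one_ne_zero
  have h4 : (ld n F).Monic := by
    rw [Monic, leadingCoeff, h3, h1]
  have h5 : (Ph 1 1 F).natDegree = n := by
    apply le_antisymm
    · rw [natDegree_le_iff_coeff_eq_zero]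
      intro k hk
      ext j
      rw [cH, coeff_zero]
      split_ifs with h6
      · by_cases h7 : F.coeff j = 0
        · rw [h7, coeff_zero]
        · have := hF.tot j h7
          exact coeff_eq_zero_of_natDegree_lt (by omega)
      · rfl
    · apply le_natDegree_of_ne_zero
      rw [H_coeff]
      exact h4.ne_zero
  refine ⟨h5, ?_, h4, h3⟩
  rw [leadingCoeff, h5, H_coeff]

theorem H_C (e : R) : Ph 1 1 (C (C e) : R[X][X]) = C (C e) := by
  unfold Ph
  rw [coe_eval₂RingHom, eval₂_C, coe_eval₂RingHom, eval₂_C]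
  rfl

/-- **The products of reduced polynomials.** -/
theorem red_mul' [IsDomain R] (hn : 0 < n) {F : R[X][X]}
    (hF : IsPl n F) (hp : Prime (ld n F)) {r s h : R[X][X]} {e : R} (hr : r.natDegree < n)
    (hs : s.natDegree < n)
    (hr0 : r ≠ 0) (hs0 : s ≠ 0) (heq : r * s = C (C e) + F * h) : h = 0 := by
  by_contra hh
  obtain ⟨h1, h2, h3, h4⟩ := H_pl hF
  have e1 := congrArg (Ph 1 1) heq
  rw [map_mul, map_add, map_mul, H_C] at e1
  have hHh : Ph 1 1 h ≠ 0 := Ph_ne one_pos hh
  have hHF : Ph 1 1 F ≠ 0 := Ph_ne one_pos hF.monic.ne_zero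
  have h5 : (Ph 1 1 F * Ph 1 1 h).natDegree = n + (Ph 1 1 h).natDegree := by
    rw [natDegree_mul hHF hHh, h1]
  have h6 : (C (C e) : R[X][X]).degree < (Ph 1 1 F * Ph 1 1 h).degree := by
    rw [degree_eq_natDegree (mul_ne_zero hHF hHh), h5]
    refine lt_of_le_of_lt degree_C_le ?_
    have : 0 < n + (Ph 1 1 h).natDegree := by omega
    exact_mod_cast this
  have e2 := congrArg leadingCoeff e1
  rw [leadingCoeff_mul, leadingCoeff_add_of_degree_lt h6, leadingCoeff_mul, h2] at e2
  have key : ∀ t : R[X][X], t.natDegree < n → t ≠ 0 → ¬ ld n F ∣ (Ph 1 1 t).leadingCoeff := by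
    intro t ht ht0
    exact h3.not_dvd_of_natDegree_lt (leadingCoeff_ne_zero.2 (Ph_ne one_pos ht0))
      (by rw [h4]; exact H_lt ht _)
  rcases hp.dvd_or_dvd (Dvd.intro _ e2.symm) with h7 | h7
  · exact key r hr hr0 h7
  · exact key s hs hs0 h7

end

section
variable {K : Type} [CommRing K] [IsDomain K] {n : ℕ} {F : K[X][X]}

theorem exists_red' (hF : IsPl n F) (hn : 0 < n) (z : AdjoinRoot F) :
    ∃ r : K[X][X], r.natDegree < n ∧ AdjoinRoot.mk F r = z := by
  obtain ⟨p, rfl⟩ := AdjoinRoot.mk_surjective z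
  refine ⟨p %ₘ F, ?_, ?_⟩
  · have h1 := natDegree_modByMonic_lt p hF.monic (by
      intro h
      have := hF.deg
      rw [h, natDegree_one] at this
      omega)
    rwa [hF.deg] at h1
  · rw [AdjoinRoot.mk_eq_mk]
    refine ⟨-(p /ₘ F), ?_⟩
    have := modByMonic_add_div p F
    linear_combination this

theorem nontr' (hn : 0 < n) (hF : IsPl n F) : Nontrivial (AdjoinRoot F) := by
  refine AdjoinRoot.nontrivial F ?_
  rw [degree_eq_natDegree hF.monic.ne_zero, hF.deg]
  exact_mod_cast hn.ne'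

/-- **The ring of the curve is a domain.** -/
theorem dom' (hn : 0 < n) (hF : IsPl n F) (hp : Prime (ld n F)) :
    IsDomain (AdjoinRoot F) := by
  have hnt := nontr' hn hF
  have h1 : NoZeroDivisors (AdjoinRoot F) := by
    refine ⟨fun {a b} hab => ?_⟩
    obtain ⟨r, hr, rfl⟩ := exists_red' hF hn a
    obtain ⟨s, hs, rfl⟩ := exists_red' hF hn b
    by_cases hr0 : r = 0
    · left
      rw [hr0, map_zero]
    by_cases hs0 : s = 0
    · right
      rw [hs0, map_zero]
    exfalso
    rw [← map_mul, AdjoinRoot.mk_eq_zero] at hab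
    obtain ⟨h, hh⟩ := hab
    have h2 := red_mul' hn hF hp (e := 0) hr hs hr0 hs0 (h := h) (by
      rw [hh, C_0, C_0, zero_add])
    rw [h2, mul_zero] at hh
    exact (mul_ne_zero hr0 hs0) hh
  exact NoZeroDivisors.to_isDomain _

theorem prime_of' (hn : 0 < n) (hF : IsPl n F) (hp : Prime (ld n F)) : Prime F := by
  have h1 := dom' hn hF hp
  rw [← Ideal.span_singleton_prime hF.monic.ne_zero]
  exact (Ideal.Quotient.isDomain_iff_prime _).1 h1

end

section
variable {K : Type} [Field K] {n : ℕ} {F : K[X][X]}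

/-- **The units are constant.** -/
theorem units' (hn : 0 < n) (hF : IsPl n F) (hp : Prime (ld n F)) {u : AdjoinRoot F}
    (hu : IsUnit u) : ∃ c : K, c ≠ 0 ∧ u = AdjoinRoot.mk F (C (C c)) := by
  have hnt := nontr' hn hF
  obtain ⟨v, hv⟩ := hu.exists_right_inv
  obtain ⟨r, hr, rfl⟩ := exists_red' hF hn u
  obtain ⟨s, hs, rfl⟩ := exists_red' hF hn v
  have hr0 : r ≠ 0 := by
    rintro rfl
    rw [map_zero, zero_mul] at hv
    exact zero_ne_one hv
  have hs0 : s ≠ 0 := by
    rintro rfl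
    rw [map_zero, mul_zero] at hv
    exact zero_ne_one hv
  rw [← map_mul, ← map_one (AdjoinRoot.mk F), AdjoinRoot.mk_eq_mk] at hv
  obtain ⟨h, hh⟩ := hv
  have h2 := red_mul' hn hF hp (e := 1) hr hs hr0 hs0 (h := h) (by
    rw [C_1, C_1]
    linear_combination hh)
  rw [h2, mul_zero, sub_eq_zero] at hh
  have h3 : IsUnit r := IsUnit.of_mul_eq_one _ hh
  obtain ⟨p, hp, rfl⟩ := Polynomial.isUnit_iff.1 h3
  obtain ⟨c, hc', rfl⟩ := Polynomial.isUnit_iff.1 hp
  exact ⟨c, hc'.ne_zero, rfl⟩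

end

theorem t_Deg : StmDeg := fun K _ n F hn hF hi =>
  ⟨prime_of' hn hF hi.prime, fun u hu => units' hn hF hi.prime hu⟩

end Pool.Agent.K3h4.PP
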