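import Pool.Agent.K3h4.PP.Deg

/-! Smooth curves are irreducible. -/

set_option autoImplicit false
set_option linter.all false

namespace Pool.Agent.K3h4.PP

open Polynomial Pool.Agent.K3h82.CP Pool.Agent.K3h71.PP

section
variable {R : Type} [CommRing R] {n : ℕ}

theorem c_dX (A : R[X][X]) (j : ℕ) : (dX A).coeff j = derivative (A.coeff j) := by
  unfold dX
  rw [Polynomial.sum, finset_sum_coeff]
  simp only [coeff_C_mul_X_pow]
  rw [Finset.sum_ite_eq]
  split_ifs with h
  · rfl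
  · rw [notMem_support_iff.1 h, derivative_zero]

theorem dX_mul (A B : R[X][X]) : dX (A * B) = dX A * B + A * dX B := by
  ext1 j
  rw [c_dX, coeff_add, coeff_mul, coeff_mul, coeff_mul, derivative_sum, ← Finset.sum_add_distrib]
  refine Finset.sum_congr rfl fun x _ => ?_
  rw [derivative_mul, c_dX, c_dX]

end

section
variable {K : Type} [Field K] {n : ℕ}

/-- top of a monic factor -/
theorem H_ge {g : K[X][X]} (hg : g.Monic) : g.natDegree ≤ (Ph 1 1 g).natDegree := by
  apply le_natDegree_of_ne_zero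
  intro h
  have h1 := cH g g.natDegree g.natDegree
  rw [h, if_pos le_rfl, Nat.sub_self, coeff_natDegree, hg.leadingCoeff, coeff_one_zero,
    coeff_zero] at h1
  exact one_ne_zero h1.symm

theorem H_top {g : K[X][X]} (hg : g.Monic) (h : (Ph 1 1 g).natDegree = g.natDegree) :
    (Ph 1 1 g).leadingCoeff.Monic ∧ (Ph 1 1 g).leadingCoeff.natDegree = g.natDegree := by
  have h1 : (Ph 1 1 g).leadingCoeff.coeff g.natDegree = 1 := by
    rw [leadingCoeff, h, cH, if_pos le_rfl, Nat.sub_self, coeff_natDegree, hg.leadingCoeff,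
      coeff_one_zero]
  have h2 : (Ph 1 1 g).leadingCoeff.natDegree ≤ g.natDegree := H_le le_rfl _
  have h3 : (Ph 1 1 g).leadingCoeff.natDegree = g.natDegree := by
    apply le_antisymm h2
    apply le_natDegree_of_ne_zero
    rw [h1]
    exact one_ne_zero
  refine ⟨?_, h3⟩
  rw [Monic]
  show (Ph 1 1 g).leadingCoeff.coeff (Ph 1 1 g).leadingCoeff.natDegree = 1
  rw [h3, h1]

theorem no_split {f g h : K[X][X]} (hf : IsPl n f) (hs : Smooth n f) (hg : g.Monic) (hh : h.Monic)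
    (hfg : f = g * h) (h1 : g.natDegree ≠ 0) (h2 : h.natDegree ≠ 0) : False := by
  obtain ⟨a1, a2, a3, a4⟩ := H_pl hf
  have hnn : n = g.natDegree + h.natDegree := by
    rw [← hf.deg, hfg, hg.natDegree_mul hh]
  have hHg : Ph 1 1 g ≠ 0 := Ph_ne one_pos hg.ne_zero
  have hHh : Ph 1 1 h ≠ 0 := Ph_ne one_pos hh.ne_zero
  have b1 : (Ph 1 1 g).natDegree + (Ph 1 1 h).natDegree = n := by
    rw [← natDegree_mul hHg hHh, ← map_mul, ← hfg, a1]
  have b2 := H_ge hg
  have b3 := H_ge hh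
  obtain ⟨c1, c2⟩ := H_top hg (by omega)
  obtain ⟨d1, d2⟩ := H_top hh (by omega)
  obtain ⟨l1, hl1⟩ : ∃ l, l = (Ph 1 1 g).leadingCoeff := ⟨_, rfl⟩
  obtain ⟨l2, hl2⟩ : ∃ l, l = (Ph 1 1 h).leadingCoeff := ⟨_, rfl⟩
  rw [← hl1] at c1 c2
  rw [← hl2] at d1 d2
  have e1 : ld n f = l1 * l2 := by
    rw [← a2, hfg, map_mul, leadingCoeff_mul, hl1, hl2]
  obtain ⟨⟨u, v, w, h3⟩, h4⟩ := hs
  have hcop : IsCoprime l1 l2 := by
    rw [e1, derivative_mul] at h4
    obtain ⟨p, q, h5⟩ := h4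
    exact ⟨p * l2 + q * derivative l2, q * derivative l1, by linear_combination h5⟩
  rw [hfg, dX_mul, derivative_mul] at h3
  obtain ⟨a, ha⟩ : ∃ a, a = u * h + v * dX h + w * derivative h := ⟨_, rfl⟩
  obtain ⟨b, hb⟩ : ∃ b, b = v * dX g + w * derivative g := ⟨_, rfl⟩
  have h5 : a * g + b * h = 1 := by
    rw [ha, hb]
    linear_combination h3
  have h6 := modByMonic_add_div b g
  obtain ⟨b0, hb0⟩ : ∃ b0, b0 = b %ₘ g := ⟨_, rfl⟩
  obtain ⟨a0, ha0⟩ : ∃ a0, a0 = a + h * (b /ₘ g) := ⟨_, rfl⟩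
  have hg1 : g ≠ 1 := by
    rintro rfl
    exact h1 natDegree_one
  have h7 : b0.natDegree < g.natDegree := by
    rw [hb0]
    exact natDegree_modByMonic_lt b hg hg1
  rw [← hb0] at h6
  have h8 : a0 * g + b0 * h = 1 := by
    rw [ha0]
    linear_combination h5 + h * h6
  by_cases h9 : b0 = 0
  · rw [h9, zero_mul, add_zero] at h8
    exact hg1 (hg.eq_one_of_isUnit (IsUnit.of_mul_eq_one a0 (by rw [mul_comm]; exact h8)))
  · have e2 := congrArg (Ph 1 1) h8
    rw [map_add, map_mul, map_mul, map_one] at e2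
    have hHb : Ph 1 1 b0 ≠ 0 := Ph_ne one_pos h9
    have e3 : Ph 1 1 a0 * Ph 1 1 g = C (C 1) + -(Ph 1 1 b0 * Ph 1 1 h) := by
      rw [C_1, C_1]
      linear_combination e2
    have e4 : (C (C 1) : K[X][X]).degree < (-(Ph 1 1 b0 * Ph 1 1 h)).degree := by
      rw [degree_neg, degree_eq_natDegree (mul_ne_zero hHb hHh), natDegree_mul hHb hHh]
      refine lt_of_le_of_lt degree_C_le ?_
      have : 0 < (Ph 1 1 b0).natDegree + (Ph 1 1 h).natDegree := by omega
      exact_mod_cast this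
    have e5 := congrArg leadingCoeff e3
    rw [leadingCoeff_mul, leadingCoeff_add_of_degree_lt e4, leadingCoeff_neg, leadingCoeff_mul,
      ← hl1, ← hl2] at e5
    have e6 : l1 ∣ (Ph 1 1 b0).leadingCoeff * l2 := by
      refine ⟨-(Ph 1 1 a0).leadingCoeff, ?_⟩
      linear_combination e5
    have e7 := hcop.dvd_of_dvd_mul_right e6
    refine c1.not_dvd_of_natDegree_lt (leadingCoeff_ne_zero.2 hHb) ?_ e7
    rw [c2]
    exact H_lt h7 _

end

theorem t_Irr : StmIrr := by
  intro K _ n f hn hf hs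
  have hf1 : f ≠ 1 := by
    intro h
    have := hf.deg
    rw [h, natDegree_one] at this
    omega
  rw [hf.monic.irreducible_iff_natDegree]
  refine ⟨hf1, fun g h hg hh hgh => ?_⟩
  by_contra hc
  push Not at hc
  exact no_split hf hs hg hh hgh.symm hc.1 hc.2

end Pool.Agent.K3h4.PP
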