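import Pool.Agent.K3h71.PP.Defs

/-! The members of the pencil over a closed point. -/

set_option autoImplicit false
set_option linter.all false

namespace Pool.Agent.K3h4.PP

open Polynomial Pool.Agent.K3h82.CP Pool.Agent.K3h71.PP

section
variable {Om : Type} [Field Om]

theorem prod_dvd {a b : Om[X][X]}
    (hnd : ∀ l l', l ≠ l' → ¬ (a - C (C l) * b ∣ a - C (C l') * b)) (L : Multiset Om) :
    ∀ s : Om[X][X], L.Nodup → (∀ l ∈ L, Prime (a - C (C l) * b)) →
      (∀ l ∈ L, a - C (C l) * b ∣ s) → (L.map fun l => a - C (C l) * b).prod ∣ s := by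
  induction L using Multiset.induction_on with
  | empty =>
    intro s _ _ _
    rw [Multiset.map_zero, Multiset.prod_zero]
    exact one_dvd _
  | cons l L ih =>
    intro s hL hp hs
    rw [Multiset.map_cons, Multiset.prod_cons]
    rw [Multiset.nodup_cons] at hL
    obtain ⟨s', rfl⟩ := hs l (Multiset.mem_cons_self _ _)
    refine mul_dvd_mul_left _ (ih s' hL.2 (fun l' hl' => hp l' (Multiset.mem_cons_of_mem hl')) ?_)
    intro l' hl'
    have h1 := hs l' (Multiset.mem_cons_of_mem hl')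
    rcases (hp l' (Multiset.mem_cons_of_mem hl')).dvd_or_dvd h1 with h2 | h2
    · exfalso
      refine hnd l' l ?_ h2
      rintro rfl
      exact hL.1 hl'
    · exact h2

variable {M : Type} [Field M] [Algebra M Om]

theorem up2_inj : Function.Injective (up2 Om : M[X][X] →+* Om[X][X]) :=
  Polynomial.map_injective _ (Polynomial.map_injective _ (algebraMap M Om).injective)

/-- conjugation -/
noncomputable def cj (σ : Om ≃ₐ[M] Om) : Om[X][X] →+* Om[X][X] :=
  mapRingHom (mapRingHom (σ : Om →+* Om))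

theorem cj_up2 (σ : Om ≃ₐ[M] Om) (s : M[X][X]) : cj σ (up2 Om s) = up2 Om s := by
  unfold cj up2
  rw [coe_mapRingHom, coe_mapRingHom, Polynomial.map_map]
  congr 1
  refine RingHom.ext fun p => ?_
  rw [RingHom.comp_apply, coe_mapRingHom, coe_mapRingHom, Polynomial.map_map]
  congr 1
  refine RingHom.ext fun x => ?_
  exact σ.commutes x

theorem cj_C (σ : Om ≃ₐ[M] Om) (c : Om) : cj σ (C (C c)) = C (C (σ c)) := by
  unfold cj
  rw [coe_mapRingHom, Polynomial.map_C, coe_mapRingHom, Polynomial.map_C]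
  rfl

theorem unit_of_up2 {t : M[X][X]} (h : IsUnit (up2 Om t)) : IsUnit t := by
  obtain ⟨r, hr, h1⟩ := Polynomial.isUnit_iff.1 h
  have h2 : t.natDegree = 0 := by
    have h3 : (up2 Om t).natDegree = t.natDegree := by
      unfold up2
      rw [coe_mapRingHom]
      exact natDegree_map_eq_of_injective (by
        rw [coe_mapRingHom]
        exact Polynomial.map_injective _ (algebraMap M Om).injective) t
    rw [← h3, ← h1, natDegree_C]
  rw [eq_C_of_natDegree_eq_zero h2] at h1 ⊢
  unfold up2 at h1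
  rw [coe_mapRingHom, Polynomial.map_C] at h1
  have h4 := C_injective h1
  rw [coe_mapRingHom] at h4
  rw [isUnit_C]
  rw [h4, Polynomial.isUnit_map] at hr
  exact hr

end

theorem conj_of {M : Type} [Field M] {Φ : M[X]} (hΦ : Irreducible Φ) {θ l : AlgebraicClosure M}
    (h1 : aeval θ Φ = 0) (h2 : aeval l Φ = 0) :
    ∃ σ : AlgebraicClosure M ≃ₐ[M] AlgebraicClosure M, σ θ = l := by
  have h3 : aeval l (minpoly M θ) = 0 := by
    rw [← minpoly.eq_of_irreducible hΦ h1, map_mul, h2, zero_mul]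
  exact minpoly.exists_algEquiv_of_root' (K := M) (L := AlgebraicClosure M)
    (Algebra.IsAlgebraic.isAlgebraic _) h3

theorem mem_up2 {M : Type} [Field M] {A B : M[X][X]} (hB0 : B ≠ 0) {g : M[X]} (hg : g ≠ 0) :
    up2 (AlgebraicClosure M) (mem A B g) =
      C (C (g.map (algebraMap M (AlgebraicClosure M))).leadingCoeff) *
      ((g.map (algebraMap M (AlgebraicClosure M))).roots.map fun l =>
        -(up2 (AlgebraicClosure M) A) - C (C l) * up2 (AlgebraicClosure M) B).prod := by
  let Om := AlgebraicClosure M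
  have hB0' : up2 Om B ≠ 0 := by
    intro h
    exact hB0 (up2_inj (by rw [h, map_zero]))
  set gb := g.map (algebraMap M Om) with hgb
  have hsp : gb.Splits := IsAlgClosed.splits gb
  have hfac : gb = C gb.leadingCoeff * (gb.roots.map fun l => X - C l).prod :=
    hsp.eq_prod_roots
  have hcard : gb.roots.card = g.natDegree := by
    rw [← hsp.natDegree_eq_card_roots, hgb, natDegree_map]
  unfold mem
  rw [hm_map, map_neg]
  have e1 : (sg g).map (up2 Om) = sg gb := by
    unfold sg
    rw [Polynomial.map_map, hgb, Polynomial.map_map]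
    congr 1
    refine RingHom.ext fun a => ?_
    rw [RingHom.comp_apply, RingHom.comp_apply, RingHom.comp_apply, RingHom.comp_apply]
    unfold up2
    rw [coe_mapRingHom, Polynomial.map_C, coe_mapRingHom, Polynomial.map_C]
  rw [e1]
  conv_lhs => rw [hfac]
  have e2 : g.natDegree = 0 + gb.roots.card := by rw [hcard, zero_add]
  rw [sg_mul, e2, hm_mul hB0' (by rw [sg_deg, natDegree_C]) (by
    rw [sg_deg, natDegree_multiset_prod_X_sub_C_eq_card]), hm_zero, hm_roots hB0']

theorem t_Mem : StmMem := by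
  intro M _ _ n A B Φ hA hAn hBn hB0 hΦ hir
  obtain ⟨h1, h2⟩ := hm_deg hA hAn hBn (g := Φ) hΦ.ne_zero
  have hd : 0 < Φ.natDegree := hΦ.natDegree_pos
  have hn : 0 < n := by omega
  have hP0 : mem A B Φ ≠ 0 := h1
  have hPd : (mem A B Φ).natDegree = n * Φ.natDegree := h2
  obtain ⟨P, hP⟩ : ∃ P, P = mem A B Φ := ⟨_, rfl⟩
  rw [← hP] at hP0 hPd ⊢
  have hup := mem_up2 (A := A) hB0 hΦ.ne_zero
  rw [← hP] at hup
  let Om := AlgebraicClosure M
  have hpi : ∀ l : Om, -(up2 Om A) - C (C l) * up2 Om B = -(FF A B l) := by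
    intro l
    unfold FF
    ring
  have hB0' : up2 Om B ≠ 0 := by
    intro h
    exact hB0 (up2_inj (by rw [h, map_zero]))
  have hdB : (up2 Om B).natDegree < n := by
    refine lt_of_le_of_lt ?_ hBn
    unfold up2
    rw [coe_mapRingHom]
    exact natDegree_map_le
  have hmA : (up2 Om A).Monic := hA.map _
  have hdA : (up2 Om A).natDegree = n := by
    unfold up2
    rw [coe_mapRingHom, hA.natDegree_map, hAn]
  have hdeg : ∀ l : Om, (C (C l) * up2 Om B).degree < (up2 Om A).degree := by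
    intro l
    rw [degree_eq_natDegree hmA.ne_zero, hdA]
    refine lt_of_le_of_lt degree_le_natDegree ?_
    have := natDegree_C_mul_le (C l) (up2 Om B)
    have h3 : (C (C l) * up2 Om B).natDegree < n := by omega
    exact_mod_cast h3
  have hFm : ∀ l : Om, (FF A B l).Monic := fun l => hmA.add_of_left (hdeg l)
  have hFd : ∀ l : Om, (FF A B l).natDegree = n := by
    intro l
    unfold FF
    rw [natDegree_add_eq_left_of_degree_lt (hdeg l), hdA]
  have hnd : ∀ l l' : Om, l ≠ l' → ¬ (-(up2 Om A) - C (C l) * up2 Om B ∣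
      -(up2 Om A) - C (C l') * up2 Om B) := by
    intro l l' hl h
    rw [hpi] at h
    replace h : FF A B l ∣ -(up2 Om) A - C (C l') * (up2 Om) B := neg_dvd.1 h
    have h3 : FF A B l ∣ -(up2 Om A) - C (C l) * up2 Om B := ⟨-1, by rw [hpi]; ring⟩
    have h4 := dvd_sub h h3
    have h5 : -(up2 Om A) - C (C l') * up2 Om B - (-(up2 Om A) - C (C l) * up2 Om B) =
        C (C (l - l')) * up2 Om B := by
      rw [C_sub, C_sub]
      ring
    rw [h5] at h4
    have h6 : IsUnit (C (C (l - l')) : Om[X][X]) :=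
      isUnit_C.2 (isUnit_C.2 (isUnit_iff_ne_zero.2 (sub_ne_zero.2 hl)))
    replace h4 : FF A B l ∣ up2 Om B := h6.dvd_mul_left.1 h4
    exact (hFm l).not_dvd_of_natDegree_lt hB0' (by rw [hFd]; exact hdB) h4
  obtain ⟨gb, hgb⟩ : ∃ gb : Om[X], gb = Φ.map (algebraMap M Om) := ⟨_, rfl⟩
  have hgb0 : gb ≠ 0 := by
    rw [hgb, Ne, Polynomial.map_eq_zero]
    exact hΦ.ne_zero
  have hrt : ∀ l ∈ gb.roots, aeval l Φ = 0 := by
    intro l hl
    have h3 := (mem_roots hgb0).1 hl
    rw [IsRoot.def, hgb, eval_map_algebraMap] at h3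
    exact h3
  have hpr : ∀ l ∈ gb.roots, Prime (-(up2 Om A) - C (C l) * up2 Om B) := by
    intro l hl
    rw [hpi]
    exact (hir l (hrt l hl)).prime.neg
  have hnod : gb.roots.Nodup := by
    apply nodup_roots
    rw [hgb]
    exact hΦ.separable.map
  change up2 Om P = C (C (Φ.map (algebraMap M Om)).leadingCoeff) *
    ((Φ.map (algebraMap M Om)).roots.map fun l => -(up2 Om A) - C (C l) * up2 Om B).prod at hup
  rw [← hgb] at hup
  have hlcu : IsUnit (C (C gb.leadingCoeff) : Om[X][X]) :=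
    isUnit_C.2 (isUnit_C.2 (isUnit_iff_ne_zero.2 (leadingCoeff_ne_zero.2 hgb0)))
  -- a root
  obtain ⟨θ, hθ⟩ : ∃ θ : Om, θ ∈ gb.roots := by
    have hdg : gb.degree ≠ 0 := by
      rw [hgb, degree_map, degree_eq_natDegree hΦ.ne_zero]
      exact_mod_cast hd.ne'
    obtain ⟨θ, hθ⟩ := IsAlgClosed.exists_root gb hdg
    exact ⟨θ, (mem_roots hgb0).2 hθ⟩
  -- all conjugates
  have hconj : ∀ l ∈ gb.roots, ∃ σ : Om ≃ₐ[M] Om, σ θ = l := by
    intro l hl
    exact conj_of hΦ (hrt θ hθ) (hrt l hl)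
  have hall : ∀ s : M[X][X], -(up2 Om A) - C (C θ) * up2 Om B ∣ up2 Om s →
      up2 Om P ∣ up2 Om s := by
    intro s hs
    rw [hup, hlcu.mul_left_dvd]
    refine prod_dvd hnd gb.roots _ hnod hpr ?_
    intro l hl
    obtain ⟨σ, hσ⟩ := hconj l hl
    have h3 := _root_.map_dvd (cj σ) hs
    rw [cj_up2, map_sub, map_neg, cj_up2, map_mul, cj_up2, cj_C, hσ] at h3
    exact h3
  have hfin : ∀ s t : M[X][X], P = s * t → -(up2 Om A) - C (C θ) * up2 Om B ∣ up2 Om s →
      IsUnit t := by
    intro s t hst hs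
    obtain ⟨q, hq⟩ := hall s hs
    have hP0' : up2 Om P ≠ 0 := by
      intro h
      exact hP0 (up2_inj (by rw [h, map_zero]))
    have h3 : up2 Om P * 1 = up2 Om P * (up2 Om t * q) := by
      rw [mul_one]
      conv_lhs => rw [hst, map_mul, hq]
      ring
    have h4 := mul_left_cancel₀ hP0' h3
    exact unit_of_up2 (IsUnit.of_mul_eq_one q h4.symm)
  refine ⟨?_, ?_⟩
  · intro hu
    have h3 := natDegree_eq_zero_of_isUnit hu
    rw [hPd] at h3
    have := Nat.mul_pos hn hd
    omega
  · intro s t hst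
    have h3 : -(up2 Om A) - C (C θ) * up2 Om B ∣ up2 Om s * up2 Om t := by
      rw [← map_mul, ← hst, hup]
      refine Dvd.dvd.mul_left ?_ _
      exact Multiset.dvd_prod (Multiset.mem_map_of_mem (fun l => -(up2 Om A) - C (C l) * up2 Om B) hθ)
    rcases (hpr θ hθ).dvd_or_dvd h3 with h4 | h4
    · right
      exact hfin s t hst h4
    · left
      exact hfin t s (by rw [hst, mul_comm]) h4

end Pool.Agent.K3h4.PP
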